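import Pool.Agent.H21.PT.Sum

/-!
# The parity theorem with one element deleted (MP_472c72)
-/

namespace H47TC

open Finset Pool.Agent.H21.PT

variable {M : Type*}

/-- the other point with the same element and the same end -/
def turnPt (x : Pt M) : Pt M := (x.1, x.2.1, !x.2.2)

theorem turnPt_turnPt (x : Pt M) : turnPt (turnPt x) = x := by
  obtain ⟨f, i, b⟩ := x
  simp [turnPt]

theorem eq_or_turn {x y : Pt M} (h1 : y.1 = x.1) (h2 : y.2.1 = x.2.1) : y = x ∨ y = turnPt x := by
  obtain ⟨f, i, b⟩ := x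
  obtain ⟨f', i', b'⟩ := y
  change f' = f at h1
  change i' = i at h2
  subst h1 h2
  by_cases h : b' = b
  · exact Or.inl (by rw [h])
  · right
    have : b' = !b := by cases b <;> cases b' <;> simp_all
    rw [this]
    rfl

/-- A state which turns back at `e` and is faithful at the other elements. -/
def FaithfulOff (a : Pt M → Pt M) (s : M → Fin 3) (e : M) : Prop :=
  s e = 0 ∧ (∀ f, f ≠ e → s f ≠ 0) ∧ ∀ f, f ≠ e → Quot.mk (relS a s) (f, false, false) ≠
    Quot.mk (relS a s) (f, false, true)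

section

variable [DecidableEq M] {a : Pt M → Pt M} {e : M}

/-- the arcs which pass over `e` -/
def jump (a : Pt M → Pt M) (e : M) (x : Pt M) : Pt M :=
  if (a x).1 = e then a (turnPt (a x)) else a x

theorem jump_off (hoff : ∀ x : Pt M, x.1 = e → (a x).1 ≠ e) (x : Pt M) : (jump a e x).1 ≠ e := by
  unfold jump
  split_ifs with h
  · exact hoff _ h
  · exact h

theorem jump_jump (ha : ∀ x, a (a x) = x) (x : Pt M) (hx : x.1 ≠ e) : jump a e (jump a e x) = x := by
  by_cases h : (a x).1 = e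
  · have h1 : jump a e x = a (turnPt (a x)) := if_pos h
    have h2 : (a (jump a e x)).1 = e := by rw [h1, ha]; exact h
    rw [show jump a e (jump a e x) = a (turnPt (a (jump a e x))) from if_pos h2, h1, ha,
      turnPt_turnPt, ha]
  · have h1 : jump a e x = a x := if_neg h
    rw [h1]
    have h2 : ¬ (a (a x)).1 = e := by rw [ha]; exact hx
    rw [show jump a e (a x) = a (a x) from if_neg h2, ha]

theorem jump_sgn (hσ : ∀ x, (a x).2.2 = !x.2.2) (x : Pt M) : (jump a e x).2.2 = !x.2.2 := by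
  unfold jump
  split_ifs with h
  · rw [hσ]
    change (!(!(a x).2.2)) = _
    rw [hσ, Bool.not_not]
  · exact hσ x

/-- a point off `e` -/
def dn (x : Pt M) (h : x.1 ≠ e) : Pt {f : M // f ≠ e} := (⟨x.1, h⟩, x.2)

/-- the inclusion -/
def inc (x : Pt {f : M // f ≠ e}) : Pt M := (x.1.1, x.2)

/-- the arcs on the elements other than `e` -/
def a0 (hoff : ∀ x : Pt M, x.1 = e → (a x).1 ≠ e) (x : Pt {f : M // f ≠ e}) :
    Pt {f : M // f ≠ e} := dn (jump a e (inc x)) (jump_off hoff _)

theorem a0_a0 (ha : ∀ x, a (a x) = x) (hoff : ∀ x : Pt M, x.1 = e → (a x).1 ≠ e)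
    (x : Pt {f : M // f ≠ e}) : a0 hoff (a0 hoff x) = x := by
  have h1 : inc (a0 hoff x) = jump a e (inc x) := rfl
  have h2 := jump_jump ha (inc x) x.1.2
  rw [← h1] at h2
  change dn (jump a e (inc (a0 hoff x))) _ = x
  have h3 : ∀ y (hy : y.1 ≠ e), y = inc x → dn y hy = x := by
    rintro y hy rfl
    rfl
  exact h3 _ _ h2

theorem a0_sgn (hσ : ∀ x, (a x).2.2 = !x.2.2) (hoff : ∀ x : Pt M, x.1 = e → (a x).1 ≠ e)
    (x : Pt {f : M // f ≠ e}) : (a0 hoff x).2.2 = !x.2.2 := jump_sgn hσ (inc x)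

/-- The classes with and without the points at `e`. -/
theorem glue (ha : ∀ x, a (a x) = x) (hoff : ∀ x : Pt M, x.1 = e → (a x).1 ≠ e)
    {R : Pt M → Pt M → Prop} {R0 : Pt {f : M // f ≠ e} → Pt {f : M // f ≠ e} → Prop}
    (h1 : ∀ x, Quot.mk R x = Quot.mk R (a x))
    (h2 : ∀ x : Pt M, x.1 = e → Quot.mk R x = Quot.mk R (turnPt x))
    (h3 : ∀ x, Quot.mk R0 x = Quot.mk R0 (a0 hoff x))
    (h4 : ∀ x y, R x y → y = a x ∨ (x.1 = e ∧ (y = x ∨ y = turnPt x)) ∨
      ∃ (hx : x.1 ≠ e) (hy : y.1 ≠ e), Quot.mk R0 (dn x hx) = Quot.mk R0 (dn y hy))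
    (h5 : ∀ x y, R0 x y → y = a0 hoff x ∨ Quot.mk R (inc x) = Quot.mk R (inc y)) :
    ∃ E : Quot R0 ≃ Quot R, ∀ x, E (Quot.mk R0 x) = Quot.mk R (inc x) := by
  let g : Pt M → Quot R0 := fun x =>
    if h : x.1 = e then Quot.mk R0 (dn (a x) (hoff x h)) else Quot.mk R0 (dn x h)
  have hg1 : ∀ (x : Pt M) (h : x.1 = e), g x = Quot.mk R0 (dn (a x) (hoff x h)) := fun x h =>
    dif_pos h
  have hg2 : ∀ (x : Pt M) (h : x.1 ≠ e), g x = Quot.mk R0 (dn x h) := fun x h => dif_neg h
  have hcong : ∀ (x y : Pt M) (hx : x.1 ≠ e) (hy : y.1 ≠ e), x = y →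
      Quot.mk R0 (dn x hx) = Quot.mk R0 (dn y hy) := by
    rintro x y hx hy rfl
    rfl
  have hj : ∀ (x : Pt M) (hx : x.1 ≠ e),
      Quot.mk R0 (dn x hx) = Quot.mk R0 (dn (jump a e x) (jump_off hoff x)) := fun x hx =>
    h3 (dn x hx)
  have harc : ∀ x, g x = g (a x) := by
    intro x
    by_cases h : x.1 = e
    · rw [hg1 x h, hg2 (a x) (hoff x h)]
    · by_cases h' : (a x).1 = e
      · rw [hg2 x h, hg1 (a x) h']
        exact hcong _ _ _ _ (ha x).symm
      · rw [hg2 x h, hg2 (a x) h', hj x h]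
        exact hcong _ _ _ _ (if_neg h')
  have hturn : ∀ x : Pt M, x.1 = e → g x = g (turnPt x) := by
    intro x h
    have h' : (turnPt x).1 = e := h
    rw [hg1 x h, hg1 _ h', hj (a x) (hoff x h)]
    refine hcong _ _ _ _ ?_
    have h6 : (a (a x)).1 = e := by rw [ha]; exact h
    rw [show jump a e (a x) = a (turnPt (a (a x))) from if_pos h6, ha]
  have hgR : ∀ x y, R x y → g x = g y := by
    intro x y h
    rcases h4 x y h with rfl | ⟨hx, rfl | rfl⟩ | ⟨hx, hy, hxy⟩
    · exact harc x
    · rfl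
    · exact hturn x hx
    · rw [hg2 x hx, hg2 y hy, hxy]
  have hf : ∀ x y, R0 x y → Quot.mk R (inc x) = Quot.mk R (inc y) := by
    intro x y h
    rcases h5 x y h with rfl | h6
    · have h7 : inc (a0 hoff x) = jump a e (inc x) := rfl
      rw [h7]
      unfold jump
      split_ifs with h8
      · rw [h1 (inc x), h2 _ h8, h1]
      · exact h1 _
    · exact h6
  refine ⟨{ toFun := Quot.lift (fun x => Quot.mk R (inc x)) hf
            invFun := Quot.lift g hgR
            left_inv := ?_
            right_inv := ?_ }, fun x => rfl⟩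
  · intro q
    induction q using Quot.ind with
    | mk x => exact hg2 (inc x) x.1.2
  · intro q
    induction q using Quot.ind with
    | mk x =>
      by_cases h : x.1 = e
      · change Quot.lift (fun x => Quot.mk R (inc x)) hf (g x) = _
        rw [hg1 x h]
        exact (h1 x).symm
      · change Quot.lift (fun x => Quot.mk R (inc x)) hf (g x) = _
        rw [hg2 x h]
        rfl

/-- the classes of the big components -/
theorem ncl_off (ha : ∀ x, a (a x) = x) (hoff : ∀ x : Pt M, x.1 = e → (a x).1 ≠ e)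
    (X : Finset {f : M // f ≠ e}) :
    ncl (relK (a0 hoff) X) = ncl (relK a (X.map (Function.Embedding.subtype _))) := by
  have hmem : ∀ (f : M), f ∈ X.map (Function.Embedding.subtype _) ↔ ∃ h : f ≠ e, (⟨f, h⟩ : {f : M // f ≠ e}) ∈ X := by
    intro f
    rw [mem_map]
    constructor
    · rintro ⟨f', h1, rfl⟩
      exact ⟨f'.2, h1⟩
    · rintro ⟨h, h1⟩
      exact ⟨_, h1, rfl⟩
  obtain ⟨E, -⟩ := glue (R := relK a (X.map (Function.Embedding.subtype _)))
    (R0 := relK (a0 hoff) X) ha hoff (fun x => Quot.sound (Or.inl rfl))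
    (fun x _ => Quot.sound (Or.inr ⟨rfl, Or.inl rfl⟩)) (fun x => Quot.sound (Or.inl rfl))
    (by
      rintro x y (h | ⟨h1, h2⟩)
      · exact Or.inl h
      · right
        by_cases hx : x.1 = e
        · left
          refine ⟨hx, eq_or_turn h1 (h2.resolve_right fun h3 => ?_)⟩
          exact ((hmem _).1 h3).1 hx
        · right
          have hy : y.1 ≠ e := by rw [h1]; exact hx
          refine ⟨hx, hy, Quot.sound (Or.inr ⟨Subtype.ext h1, ?_⟩)⟩
          rcases h2 with h2 | h2
          · exact Or.inl h2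
          · exact Or.inr ((hmem _).1 h2).2)
    (by
      rintro x y (h | ⟨h1, h2⟩)
      · exact Or.inl h
      · right
        refine Quot.sound (Or.inr ⟨congrArg Subtype.val h1, ?_⟩)
        rcases h2 with h2 | h2
        · exact Or.inl h2
        · exact Or.inr ((hmem _).2 ⟨x.1.2, h2⟩))
  exact Nat.card_congr E

/-- faithful states off `e` -/
theorem faithfulOff_of (ha : ∀ x, a (a x) = x) (hoff : ∀ x : Pt M, x.1 = e → (a x).1 ≠ e)
    (s0 : {f : M // f ≠ e} → Fin 3) (hs : Faithful (a0 hoff) s0) :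
    ∃ s, FaithfulOff a s e := by
  let s : M → Fin 3 := fun f => if h : f = e then 0 else s0 ⟨f, h⟩
  have hse : s e = 0 := dif_pos rfl
  have hsf : ∀ (f : M) (h : f ≠ e), s f = s0 ⟨f, h⟩ := fun f h => dif_neg h
  obtain ⟨E, hE⟩ := glue (R := relS a s) (R0 := relS (a0 hoff) s0) ha hoff
    (fun x => Quot.sound (Or.inl rfl))
    (fun x hx => Quot.sound (Or.inr (by
      change turnPt x = (x.1, lk (s x.1) x.2)
      rw [hx, hse]
      unfold turnPt
      rw [hx]
      rfl)))
    (fun x => Quot.sound (Or.inl rfl))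
    (by
      rintro x y (h | h)
      · exact Or.inl h
      · right
        by_cases hx : x.1 = e
        · left
          refine ⟨hx, Or.inr ?_⟩
          rw [h]
          change (x.1, lk (s x.1) x.2) = turnPt x
          rw [hx, hse]
          unfold turnPt
          rw [hx]
          rfl
        · right
          have hy : y.1 ≠ e := by rw [h]; exact hx
          refine ⟨hx, hy, Quot.sound (Or.inr ?_)⟩
          subst h
          change ((⟨x.1, hy⟩ : {f : M // f ≠ e}), lk (s x.1) x.2) = (⟨x.1, hx⟩, lk (s0 ⟨x.1, hx⟩) x.2)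
          rw [hsf x.1 hx])
    (by
      rintro x y (h | h)
      · exact Or.inl h
      · right
        refine Quot.sound (Or.inr ?_)
        subst h
        change (x.1.1, lk (s0 x.1) x.2) = (x.1.1, lk (s x.1.1) x.2)
        rw [hsf x.1.1 x.1.2])
  refine ⟨s, hse, fun f hf => ?_, fun f hf h => ?_⟩
  · rw [hsf f hf]
    exact hs.1 _
  · apply hs.2 ⟨f, hf⟩
    apply E.injective
    rw [hE, hE]
    exact h

/-- **Parity theorem**, abstract form, with the element `e` deleted. -/
theorem forest_sum_dvd_off [Fintype M] (ha : ∀ x, a (a x) = x) (hσ : ∀ x, (a x).2.2 = !x.2.2)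
    (hoff : ∀ x : Pt M, x.1 = e → (a x).1 ≠ e) (hno : ¬ ∃ s, FaithfulOff a s e) :
    (4 : ℤ) ∣ ∑ X ∈ univ.filter (fun X : Finset M => e ∉ X ∧ ncl (relK a X) + X.card =
      ncl (relK a ∅)), (-1) ^ X.card := by
  have h1 := forest_sum_dvd (a0_a0 ha hoff) (a0_sgn hσ hoff)
    (fun ⟨s0, hs0⟩ => hno (faithfulOff_of ha hoff s0 hs0))
  have h2 : ∑ X ∈ univ.filter (fun X : Finset M => e ∉ X ∧ ncl (relK a X) + X.card =
      ncl (relK a ∅)), (-1 : ℤ) ^ X.card = ∑ X ∈ univ.filter (fun X : Finset {f : M // f ≠ e} =>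
      ncl (relK (a0 hoff) X) + X.card = ncl (relK (a0 hoff) ∅)), (-1) ^ X.card := by
    symm
    refine sum_nbij' (fun X => X.map (Function.Embedding.subtype _))
      (fun X => X.subtype fun f => f ≠ e) ?_ ?_ ?_ ?_ ?_
    · intro X hX
      rw [mem_filter] at hX ⊢
      refine ⟨mem_univ _, ?_, ?_⟩
      · rw [mem_map]
        rintro ⟨f, -, h⟩
        exact f.2 h
      · have h3 := hX.2
        rw [ncl_off ha hoff, ncl_off ha hoff, map_empty] at h3
        rw [card_map]
        exact h3
    · intro X hX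
      rw [mem_filter] at hX ⊢
      obtain ⟨-, h3, h4⟩ := hX
      have h5 : (X.subtype fun f => f ≠ e).map (Function.Embedding.subtype _) = X :=
        subtype_map_of_mem fun f hf h => h3 (h ▸ hf)
      refine ⟨mem_univ _, ?_⟩
      rw [ncl_off ha hoff, ncl_off ha hoff, map_empty, h5]
      have h6 : (X.subtype fun f => f ≠ e).card = X.card := by
        conv_rhs => rw [← h5]
        rw [card_map]
      rw [h6]
      exact h4
    · intro X _
      ext f
      simp only [mem_subtype, mem_map, Function.Embedding.subtype_apply, Subtype.exists,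
        exists_and_right, exists_eq_right]
      exact ⟨fun ⟨_, h⟩ => h, fun h => ⟨f.2, h⟩⟩
    · intro X hX
      rw [mem_filter] at hX
      exact subtype_map_of_mem fun f hf h => hX.2.1 (h ▸ hf)
    · intro X _
      rw [card_map]
  rw [h2]
  exact h1

end

end H47TC
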