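import Pool.Agent.H47.TC.Abs
import Pool.Agent.H21.PT.Comp
import Pool.Agent.H48.FJ.Fam
import Pool.Agent.H34CP.Gr.Final

/-!
# Faithful states off an edge give faithful covers of `G - e` (MP_472c72)
-/

namespace H47TC

open Pool.Agent.H66.GD Pool.Agent.H21.PT Pool.Agent.H34CP.Gr
open scoped Classical

universe u

variable {V : Type u} {G : SimpleGraph V} {w : Sym2 V → ℕ}

/-- arcs from `e` do not end at `e` -/
theorem arc_off (hG : Cubic G) (hw : IsWeight G w) (p : GPt G w) :
    s((arc hG hw p).v, (arc hG hw p).x) ≠ s(p.v, p.x) := by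
  by_cases h : w s(p.v, p.y) = 2
  · rw [arc_two hG hw p h]
    intro h1
    rw [Sym2.eq_iff] at h1
    rcases h1 with ⟨-, h1⟩ | ⟨h1, -⟩
    · exact p.ne h1.symm
    · exact p.hx.ne h1
  · obtain ⟨h1, -, -⟩ := arc_one hG hw p h
    rw [h1]
    intro h2
    rw [Sym2.eq_iff] at h2
    rcases h2 with ⟨h2, -⟩ | ⟨h2, -⟩
    · exact p.hy.ne h2.symm
    · exact p.ne h2.symm

variable {hG : Cubic G} {hw : IsWeight G w} (c : Coding hG hw)

theorem a_off {e : Two G w} (x : Pt (Two G w)) (hx : x.1 = e) : (c.a x).1 ≠ e := by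
  intro h
  have h1 := arc_off hG hw (c.Φ.symm x)
  apply h1
  rw [← c.edge, ← c.edge, Equiv.apply_symm_apply, hx, ← h]
  rfl

section state

variable {s : Two G w → Fin 3} {e : Two G w}

theorem lnk_end' {p : GPt G w} (hs : s (c.Φ p).1 ≠ 0) :
    (c.lnk s p).v = p.x ∧ (c.lnk s p).x = p.v := by
  apply c.other
  · unfold Coding.lnk
    rw [Equiv.apply_symm_apply]
    rfl
  · unfold Coding.lnk
    rw [Equiv.apply_symm_apply]
    have h1 : ∀ (t : Fin 3) (b : Bool × Bool), t ≠ 0 → b.1 ≠ (lk t b).1 := by decide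
    exact h1 _ _ hs

theorem edge_ne {p : GPt G w} : (c.Φ p).1 ≠ e ↔ s(p.v, p.x) ≠ e.1 := by
  rw [← c.edge, not_iff_not]
  exact ⟨fun h => congrArg Subtype.val h, fun h => Subtype.ext h⟩

theorem cls_turn' (hs : FaithfulOff c.a s e) {p : GPt G w} (hp : s(p.v, p.x) ≠ e.1) :
    c.cls s (turn hG p) ≠ c.cls s p := by
  have hp' : (c.Φ p).1 ≠ e := (edge_ne c).2 hp
  have h0 : ∀ b : Bool, Quot.mk (relS c.a s) ((c.Φ p).1, false, b) ≠
      Quot.mk (relS c.a s) ((c.Φ p).1, false, !b) := by
    intro b
    cases b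
    · exact hs.2.2 _ hp'
    · exact (hs.2.2 _ hp').symm
  have h1 : ∀ (i b : Bool), Quot.mk (relS c.a s) ((c.Φ p).1, i, b) ≠
      Quot.mk (relS c.a s) ((c.Φ p).1, i, !b) := by
    intro i b
    cases i
    · exact h0 b
    · have h2 : ∀ x : Pt (Two G w), Quot.mk (relS c.a s) x = Quot.mk (relS c.a s) (link s x) :=
        fun x => Quot.sound (Or.inr rfl)
      rw [h2 ((c.Φ p).1, true, b), h2 ((c.Φ p).1, true, !b)]
      have h3 : ∀ (t : Fin 3) (b : Bool), t ≠ 0 → ∃ b', lk t (true, b) = (false, b') ∧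
          lk t (true, !b) = (false, !b') := by decide
      obtain ⟨b', h4, h5⟩ := h3 (s (c.Φ p).1) b (hs.2.1 _ hp')
      unfold link
      simp only [h4, h5]
      exact h0 b'
  unfold Coding.cls
  rw [c.turned]
  exact (h1 (c.Φ p).2.1 (c.Φ p).2.2).symm

theorem cls_turn_e (hs : FaithfulOff c.a s e) {p : GPt G w} (hp : s(p.v, p.x) = e.1) :
    c.cls s (turn hG p) = c.cls s p := by
  have hp' : (c.Φ p).1 = e := by
    by_contra h
    exact (edge_ne c).1 h hp
  unfold Coding.cls
  rw [c.turned]
  have h : relS c.a s (c.Φ p) ((c.Φ p).1, (c.Φ p).2.1, !(c.Φ p).2.2) := by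
    right
    unfold link
    rw [hp', hs.1]
    rfl
  exact (Quot.sound h).symm

/-- points of one class at the same vertex -/
theorem at_vertex' {p q : GPt G w}
    (hturn : ∀ p' : GPt G w, p'.v = p.v → c.cls s (turn hG p') ≠ c.cls s p')
    (hc : c.cls s q = c.cls s p) (hv : q.v = p.v) :
    (q.x = p.x ∧ q.y = p.y) ∨ (q.x = p.y ∧ q.y = p.x) := by
  by_cases hx : q.x = p.x
  · rcases same_end hG hv hx with h | h
    · left; rw [h]; exact ⟨rfl, rfl⟩
    · exfalso
      rw [h] at hc
      exact hturn p rfl hc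
  · right
    have hqx : G.Adj p.v q.x := hv ▸ q.hx
    have hq2 : w s(p.v, q.x) = 2 := hv ▸ q.h2
    have hall : ∀ z, G.Adj p.v z → w s(p.v, z) = 2 := fun z hz =>
      all_two hG hw p.hx hqx (Ne.symm hx) p.h2 hq2 hz
    have hp : arc hG hw p = ⟨p.v, p.y, p.x, p.hy, p.hx, p.ne.symm, hall p.y p.hy⟩ :=
      arc_two hG hw p (hall p.y p.hy)
    have hqy2 : w s(q.v, q.y) = 2 := by
      have h1 : G.Adj p.v q.y := hv ▸ q.hy
      rw [hv]
      exact hall q.y h1
    have hq : arc hG hw q = ⟨q.v, q.y, q.x, q.hy, q.hx, q.ne.symm, hqy2⟩ := arc_two hG hw q hqy2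
    have hcp : c.cls s (arc hG hw p) = c.cls s p := c.cls_arc s p
    have hcq : c.cls s (arc hG hw q) = c.cls s q := c.cls_arc s q
    have key : ∀ p' q' : GPt G w, p'.v = p.v → q'.v = p'.v → q'.x = p'.x →
        c.cls s q' = c.cls s p' → q' = p' := by
      intro p' q' h0 h1 h2 h3
      rcases same_end hG h1 h2 with h | h
      · exact h
      · exfalso
        rw [h] at h3
        exact hturn p' h0 h3
    by_cases h1 : q.x = p.y
    · have := key (arc hG hw p) q (by rw [hp]) (by rw [hp]; exact hv) (by rw [hp]; exact h1)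
        (hc.trans hcp.symm)
      rw [this, hp]
      exact ⟨rfl, rfl⟩
    · exfalso
      obtain ⟨-, -, -, h4⟩ := third_spec hG p.hx p.hy p.ne
      have hqy : G.Adj p.v q.y := hv ▸ q.hy
      have h5 : q.x = third G p.v p.x p.y := by
        rcases h4 q.x hqx with h | h | h
        · exact absurd h hx
        · exact absurd h h1
        · exact h
      rcases h4 q.y hqy with h | h | h
      · have := key p (arc hG hw q) rfl (by rw [hq]; exact hv) (by rw [hq]; exact h)
          (hcq.trans hc)
        apply h1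
        rw [← this, hq]
      · have := key (arc hG hw p) (arc hG hw q) (by rw [hp]) (by rw [hq, hp]; exact hv)
          (by rw [hq, hp]; exact h) (hcq.trans (hc.trans hcp.symm))
        apply hx
        have h6 := congrArg GPt.y this
        rw [hq, hp] at h6
        exact h6
      · exact q.ne (h5.trans h.symm)

/-- The subgraph of a class, without the edge `e`. -/
def sub (hs : FaithfulOff c.a s e) (K : Quot (relS c.a s)) : SimpleGraph V where
  Adj u u' := s(u, u') ≠ e.1 ∧ ∃ p, c.cls s p = K ∧ p.v = u ∧ (p.x = u' ∨ p.y = u')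
  symm := ⟨by
    rintro u u' ⟨hne, p, hK, rfl, rfl | rfl⟩
    · refine ⟨by rw [Sym2.eq_swap]; exact hne, c.lnk s p, (c.cls_lnk s p).trans hK, ?_⟩
      obtain ⟨h1, h2⟩ := lnk_end' c (hs.2.1 _ ((edge_ne c).2 hne))
      exact ⟨h1, Or.inl h2⟩
    · refine ⟨by rw [Sym2.eq_swap]; exact hne, ?_⟩
      by_cases h2 : w s(p.v, p.y) = 2
      · have hp := arc_two hG hw p h2
        have h3 : s((arc hG hw p).v, (arc hG hw p).x) ≠ e.1 := by rw [hp]; exact hne
        obtain ⟨h4, h5⟩ := lnk_end' c (hs.2.1 _ ((edge_ne c).2 h3))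
        refine ⟨c.lnk s (arc hG hw p), ((c.cls_lnk s _).trans (c.cls_arc s p)).trans hK, ?_, ?_⟩
        · rw [h4, hp]
        · left
          rw [h5, hp]
      · obtain ⟨h3, h4, h5⟩ := arc_one hG hw p h2
        exact ⟨arc hG hw p, (c.cls_arc s p).trans hK, h3, Or.inr h5⟩⟩
  loopless := ⟨by
    rintro u ⟨-, p, -, rfl, h | h⟩
    · exact p.hx.ne h.symm
    · exact p.hy.ne h.symm⟩

theorem sub_adj {hs : FaithfulOff c.a s e} {K : Quot (relS c.a s)} {u u' : V} :
    (sub c hs K).Adj u u' ↔ s(u, u') ≠ e.1 ∧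
      ∃ p, c.cls s p = K ∧ p.v = u ∧ (p.x = u' ∨ p.y = u') := Iff.rfl

theorem sub_le (hs : FaithfulOff c.a s e) (K : Quot (relS c.a s)) : sub c hs K ≤ G := by
  rintro u u' ⟨-, p, -, rfl, rfl | rfl⟩
  · exact p.hx
  · exact p.hy

theorem sub_deg (hs : FaithfulOff c.a s e) (K : Quot (relS c.a s)) (v : V) :
    ((sub c hs K).neighborSet v).ncard = 0 ∨ ((sub c hs K).neighborSet v).ncard = 2 := by
  by_cases hex : ∃ p, c.cls s p = K ∧ p.v = v
  swap
  · left
    have : (sub c hs K).neighborSet v = ∅ := by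
      ext u
      simp only [SimpleGraph.mem_neighborSet, sub_adj, Set.mem_empty_iff_false, iff_false]
      rintro ⟨-, p, h1, h2, -⟩
      exact hex ⟨p, h1, h2⟩
    rw [this, Set.ncard_empty]
  right
  obtain ⟨p, hK, rfl⟩ := hex
  obtain ⟨hz, hzx, hzy, hall⟩ := third_spec hG p.hx p.hy p.ne
  set z := third G p.v p.x p.y with hzdef
  -- it is enough to find two neighbours
  have main : ∀ a b : V, a ≠ b → (sub c hs K).Adj p.v a → (sub c hs K).Adj p.v b →
      (∀ u, (sub c hs K).Adj p.v u → u = a ∨ u = b) →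
      ((sub c hs K).neighborSet p.v).ncard = 2 := by
    intro a b hab ha hb hu
    have : (sub c hs K).neighborSet p.v = {a, b} := by
      ext u
      rw [SimpleGraph.mem_neighborSet, Set.mem_insert_iff, Set.mem_singleton_iff]
      constructor
      · exact hu u
      · rintro (rfl | rfl)
        · exact ha
        · exact hb
    rw [this, Set.ncard_pair hab]
  have hcase : ∀ u, (sub c hs K).Adj p.v u → u = p.x ∨ u = p.y ∨ u = z := fun u hu =>
    hall u (sub_le c hs K hu)
  have hinj : ∀ {a b : V}, s(p.v, a) = s(p.v, b) → a = b := by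
    intro a b h
    rw [Sym2.eq_iff] at h
    rcases h with ⟨-, h⟩ | ⟨h, h'⟩
    · exact h
    · exact h'.trans h
  by_cases h1 : s(p.v, p.x) = e.1
  · -- the edge of the point is `e`
    have ht := (cls_turn_e c hs h1).trans hK
    refine main p.y z hzy.symm ⟨fun h => ?_, p, hK, rfl, Or.inr rfl⟩
      ⟨fun h => ?_, turn hG p, ht, rfl, Or.inr rfl⟩ ?_
    · exact p.ne (hinj (h1.trans h.symm))
    · exact hzx (hinj (h.trans h1.symm))
    · intro u hu
      rcases hcase u hu with rfl | h | h
      · exact absurd h1 hu.1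
      · exact Or.inl h
      · exact Or.inr h
  · by_cases h2 : s(p.v, p.y) = e.1
    · have hw2 : w s(p.v, p.y) = 2 := by rw [h2]; exact e.2.2
      have hp := arc_two hG hw p hw2
      have h3 : s((arc hG hw p).v, (arc hG hw p).x) = e.1 := by rw [hp]; exact h2
      have ht : c.cls s (turn hG (arc hG hw p)) = K :=
        (cls_turn_e c hs h3).trans ((c.cls_arc s p).trans hK)
      have htz : (turn hG (arc hG hw p)).v = p.v ∧ (turn hG (arc hG hw p)).y = z := by
        rw [hp]
        refine ⟨rfl, ?_⟩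
        change third G p.v p.y p.x = z
        obtain ⟨h4, h5, h6, -⟩ := third_spec hG p.hy p.hx p.ne.symm
        rcases hall _ h4 with h | h | h
        · exact absurd h h6
        · exact absurd h h5
        · exact h
      refine main p.x z hzx.symm ⟨h1, p, hK, rfl, Or.inl rfl⟩
        ⟨fun h => ?_, _, ht, htz.1, Or.inr htz.2⟩ ?_
      · exact hzy (hinj (h.trans h2.symm))
      · intro u hu
        rcases hcase u hu with h | rfl | h
        · exact Or.inl h
        · exact absurd h2 hu.1
        · exact Or.inr h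
    · refine main p.x p.y p.ne ⟨h1, p, hK, rfl, Or.inl rfl⟩ ⟨h2, p, hK, rfl, Or.inr rfl⟩ ?_
      intro u hu
      rcases hcase u hu with h | h | h
      · exact Or.inl h
      · exact Or.inr h
      · exfalso
        subst h
        obtain ⟨h3, q, hq, hqv, hqu⟩ := hu
        have hturn : ∀ p' : GPt G w, p'.v = p.v → c.cls s (turn hG p') ≠ c.cls s p' := by
          intro p' hv
          refine cls_turn' c hs ?_
          rw [hv]
          have h4 : G.Adj p.v p'.x := hv ▸ p'.hx
          rcases hall _ h4 with h | h | h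
          · rw [h]; exact h1
          · rw [h]; exact h2
          · rw [h]; exact h3
        rcases at_vertex' c hturn (hq.trans hK.symm) hqv with ⟨h4, h5⟩ | ⟨h4, h5⟩
        · rcases hqu with h | h
          · exact hzx (h.symm.trans h4)
          · exact hzy (h.symm.trans h5)
        · rcases hqu with h | h
          · exact hzy (h.symm.trans h4)
          · exact hzx (h.symm.trans h5)

theorem sub_count (hs : FaithfulOff c.a s e) (u u' : V) (hadj : G.Adj u u')
    (hne : s(u, u') ≠ e.1) : {K | (sub c hs K).Adj u u'}.ncard = w s(u, u') := by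
  rcases hw.1 s(u, u') hadj with h1 | h2
  · rw [h1]
    obtain ⟨hm, hm2, hmu⟩ := mate_spec hG hw hadj h1
    have hne' : mate G w u ≠ u' := by
      intro h
      rw [h, h1] at hm2
      exact absurd hm2 (by decide)
    let p : GPt G w := ⟨u, mate G w u, u', hm, hadj, hne', hm2⟩
    have h3 : {K | (sub c hs K).Adj u u'} = {c.cls s p} := by
      ext K
      rw [Set.mem_ofPred_eq, sub_adj, Set.mem_singleton_iff]
      constructor
      · rintro ⟨-, q, hq, hqv, h4⟩
        rcases h4 with h4 | h4
        · exfalso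
          have := q.h2
          rw [hqv, h4, h1] at this
          exact absurd this (by decide)
        · rw [← hq]
          congr 1
          exact GPt.ext hqv (hmu q.x (hqv ▸ q.hx) (hqv ▸ q.h2)) h4
      · rintro rfl
        exact ⟨hne, p, rfl, rfl, Or.inr rfl⟩
    rw [h3, Set.ncard_singleton]
  · rw [h2]
    obtain ⟨p, hpv, hpx⟩ := exists_pt hG hadj h2
    have hpe : s(p.v, p.x) ≠ e.1 := by rw [hpv, hpx]; exact hne
    have h3 : {K | (sub c hs K).Adj u u'} = {c.cls s (turn hG p), c.cls s p} := by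
      ext K
      rw [Set.mem_ofPred_eq, sub_adj, Set.mem_insert_iff, Set.mem_singleton_iff]
      constructor
      · rintro ⟨-, q, hq, hqv, h4⟩
        obtain ⟨q', hq', hqv', hqx'⟩ : ∃ q', c.cls s q' = K ∧ q'.v = u ∧ q'.x = u' := by
          rcases h4 with h4 | h4
          · exact ⟨q, hq, hqv, h4⟩
          · have h5 : w s(q.v, q.y) = 2 := by rw [hqv, h4]; exact h2
            refine ⟨arc hG hw q, (c.cls_arc s q).trans hq, ?_, ?_⟩
            · rw [arc_two hG hw q h5]; exact hqv
            · rw [arc_two hG hw q h5]; exact h4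
        rcases same_end hG (hqv'.trans hpv.symm) (hqx'.trans hpx.symm) with h | h
        · right; rw [← hq', h]
        · left; rw [← hq', h]
      · rintro (rfl | rfl)
        · exact ⟨hne, turn hG p, rfl, hpv, Or.inl hpx⟩
        · exact ⟨hne, p, rfl, hpv, Or.inl hpx⟩
    rw [h3, Set.ncard_pair (cls_turn' c hs hpe)]

end state

/-- A faithful state off `e` gives a faithful cover of `G - e`. -/
theorem coverMinus [Fintype V] {e : Two G w} (h : ∃ s, FaithfulOff c.a s e) :
    CoverMinus G w e.1 := by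
  obtain ⟨s, hs⟩ := h
  have : Finite (Quot (relS c.a s)) := Finite.of_surjective (Quot.mk _) Quot.mk_surjective
  obtain ⟨n, ⟨E⟩⟩ := Finite.exists_equiv_fin (Quot (relS c.a s))
  have h1 : FaithfulCover G (fun f => if f = e.1 then 0 else w f) := by
    refine H48FJ.cover_of_family (Fin n) (fun i => sub c hs (E.symm i))
      (fun i => sub_le c hs _) (fun i v => sub_deg c hs _ v) ?_
    intro u v huv
    by_cases hne : s(u, v) = e.1
    · rw [if_pos hne]
      have h2 : {i | (sub c hs (E.symm i)).Adj u v} = ∅ := by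
        ext i
        simp only [Set.mem_ofPred_eq, Set.mem_empty_iff_false, iff_false]
        exact fun h => h.1 hne
      rw [h2, Set.ncard_empty]
    · rw [if_neg hne, ← sub_count c hs u v huv hne]
      have h2 : {i | (sub c hs (E.symm i)).Adj u v} = E '' {K | (sub c hs K).Adj u v} := by
        ext i
        simp only [Set.mem_ofPred_eq, Set.mem_image]
        constructor
        · intro h
          exact ⟨E.symm i, h, by simp⟩
        · rintro ⟨K, hK, rfl⟩
          simpa using hK
      rw [h2, Set.ncard_image_of_injective _ E.injective]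
  exact h1

end H47TC
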