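import Pool.Agent.H47.TC.Cov
import Pool.Agent.H21.PT.Two
import Pool.Agent.H48.FJ.Fin

/-!
# The parity theorem for `G - e` (MP_472c72)
-/

namespace H47TC

open Pool.Agent.H66.GD Pool.Agent.H21.PT Pool.Agent.H34CP.Gr
open scoped Classical

universe u

variable {V : Type u} [Fintype V] {G : SimpleGraph V} {w : Sym2 V → ℕ}

/-- The number of the sets `X` as in `ForestOver` with even `|X|` which do not contain `e`, minus
the number of those with odd `|X|`. -/
noncomputable def forestSumOff (G : SimpleGraph V) (w : Sym2 V → ℕ) (e : Sym2 V) : ℤ :=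
  ∑ X : Finset (Sym2 V), if e ∉ X ∧ ForestOver G w X then (-1) ^ X.card else 0

/-- **Parity theorem for `G - e`.** -/
theorem four_dvd_forestSumOff (hG : Cubic G) (hw : IsWeight G w) {e : Sym2 V}
    (he : e ∈ G.edgeSet) (he2 : w e = 2) (hno : ¬ CoverMinus G w e) :
    (4 : ℤ) ∣ forestSumOff G w e := by
  obtain ⟨c⟩ := exists_coding hG hw
  let e' : Two G w := ⟨e, he, he2⟩
  have h1 := forest_sum_dvd_off (e := e') c.a_a c.a_sgn (fun x hx => a_off c x hx)
    fun h => hno (coverMinus c h)
  have h2 : forestSumOff G w e = ∑ X ∈ Finset.univ.filter (fun X : Finset (Two G w) =>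
      e' ∉ X ∧ ncl (relK c.a X) + X.card = ncl (relK c.a ∅)), (-1) ^ X.card := by
    have h0 : Coding.im (∅ : Finset (Two G w)) = ∅ := rfl
    unfold forestSumOff
    rw [Finset.sum_filter]
    symm
    refine Fintype.sum_of_injective (fun X : Finset (Two G w) => Coding.im X)
      (Finset.map_injective _) _ _ ?_ ?_
    · intro Y hY
      rw [if_neg]
      intro hF
      apply hY
      refine ⟨Y.subtype _, ?_⟩
      exact Finset.subtype_map_of_mem hF.2.1
    · intro X
      have h3 : (Coding.im X).card = X.card := Finset.card_map _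
      have h4 : ForestOver G w (Coding.im X) ↔ ncl (relK c.a X) + X.card = ncl (relK c.a ∅) := by
        unfold ForestOver
        rw [c.ncl_relK, c.ncl_relK, h0, h3]
        constructor
        · intro h; exact h.2
        · intro h
          refine ⟨fun e he => ?_, h⟩
          rw [Coding.mem_im] at he
          exact he.1
      have h5 : e ∈ Coding.im X ↔ e' ∈ X := by
        rw [Coding.mem_im]
        exact ⟨fun ⟨_, h⟩ => h, fun h => ⟨⟨he, he2⟩, h⟩⟩
      have h6 : (e ∉ Coding.im X ∧ ForestOver G w (Coding.im X)) ↔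
          (e' ∉ X ∧ ncl (relK c.a X) + X.card = ncl (relK c.a ∅)) := by rw [h4, h5]
      by_cases h7 : e ∉ Coding.im X ∧ ForestOver G w (Coding.im X)
      · rw [if_pos h7, if_pos (h6.1 h7), h3]
      · rw [if_neg h7, if_neg fun h => h7 (h6.2 h)]
  rw [h2]
  exact h1

/-- **The criterion.** -/
theorem criterion (hG : Cubic G) (hb : Bridgeless G) (hw : IsWeight G w)
    (hno : ¬ ∃ C : G.Subgraph, Removable G w C) {e : Sym2 V} (he : e ∈ G.edgeSet) (he2 : w e = 2)
    (hs : ¬ (4 : ℤ) ∣ forestSumOff G w e)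
    (h : CycConn4 G ∨ ∀ f ∈ G.edgeSet, w f = 2 → ¬ (4 : ℤ) ∣ forestSumOff G w f) :
    IsP10 G w := by
  have h1 : ∀ f ∈ G.edgeSet, w f = 2 → ¬ (4 : ℤ) ∣ forestSumOff G w f → CoverMinus G w f := by
    intro f hf hf2 hfs
    by_contra hcon
    exact hfs (four_dvd_forestSumOff hG hw hf hf2 hcon)
  exact H48FJ.one_or_all hG hb hw hno he he2 (h1 e he he2 hs)
    (h.imp_right fun h2 f hf hf2 => h1 f hf hf2 (h2 f hf hf2))

/-- There is an edge of weight two. -/
theorem exists_two [Nonempty V] (hG : Cubic G) (hw : IsWeight G w) :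
    ∃ e ∈ G.edgeSet, w e = 2 := by
  obtain ⟨v⟩ := ‹Nonempty V›
  by_contra hcon
  push Not at hcon
  have h1 : {u | G.Adj v u ∧ Odd (w s(v, u))} = G.neighborSet v := by
    ext u
    simp only [Set.mem_ofPred_eq, SimpleGraph.mem_neighborSet, and_iff_left_iff_imp]
    intro hu
    rcases hw.1 s(v, u) hu with h | h
    · rw [h]; exact odd_one
    · exact absurd h (hcon _ hu)
  have h2 := hw.2 v
  rw [h1, hG v] at h2
  exact absurd h2 (by decide)

end H47TC
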